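import Pool.Agent.H599R2.PH.Trade

/-!
# Alternation depth versus size for quantified De Morgan formulas
-/

open H599.PH in
theorem Pool.Agent.Results.MP_dee884_lc.AlternationDepth.result :
    (∀ (k : ℕ) (e : Bool) (n m s : ℕ), 1 ≤ m → OddPar n ∈ Sig e k m s n →
      n ^ 2 ≤ 10 ^ 15 * (6 * k + 6) ^ (4 * k + 4) * m ^ (4 * k + 3) * s) ∧
    (∀ r n m s : ℕ, 2 ≤ m → 8 * n ^ 2 + 77 * m ^ (2 * r + 2) ≤ s * m ^ r →
      OddPar n ∈ Sig true (2 * r) m s n) ∧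
    (∀ n : ℕ, 0 < n → OddPar n ∈ Sig true (2 * Nat.clog 2 n) 1 (28 * n) n) :=
  ⟨trade_lower, trade_upper, trade_log⟩
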